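import Pool.Agent.Lib.MP_9f272e_an.Meas

/-!
# A bounded holomorphic function on the ball whose exceptional set is not totally null
-/

namespace Pool.Agent.Results.MP_9f272e_an.RadialFailure

open MeasureTheory Filter Topology Metric Set

/-- `ℂ^n` with its Euclidean norm. -/
abbrev Cn (n : ℕ) : Type := EuclideanSpace ℂ (Fin n)

/-- The unit sphere `S` of `ℂ^n`. -/
abbrev Sph (n : ℕ) : Type := sphere (0 : Cn n) 1

/-- `f` belongs to `H^∞(B)`: it is holomorphic and bounded on the open unit ball. -/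
def IsHInf {n : ℕ} (f : Cn n → ℂ) : Prop :=
  DifferentiableOn ℂ f (ball (0 : Cn n) 1) ∧ ∃ C : ℝ, ∀ z ∈ ball (0 : Cn n) 1, ‖f z‖ ≤ C

/-- `g` belongs to the ball algebra `A(B)`: it is continuous on the closed unit ball and
holomorphic in the open unit ball. -/
def IsBallAlg {n : ℕ} (g : Cn n → ℂ) : Prop :=
  ContinuousOn g (closedBall (0 : Cn n) 1) ∧ DifferentiableOn ℂ g (ball (0 : Cn n) 1)

/-- The set `M₀` of the Borel probability measures on `S` which represent the origin
for `A(B)`. -/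
def M0 (n : ℕ) : Set (Measure (Sph n)) :=
  {ρ | IsProbabilityMeasure ρ ∧ ∀ g : Cn n → ℂ, IsBallAlg g → ∫ ζ, g (ζ : Cn n) ∂ρ = g 0}

/-- A set `E ⊆ S` is totally null if `ρ(E) = 0` for every `ρ` in `M₀`. -/
def TotallyNull {n : ℕ} (E : Set (Sph n)) : Prop := ∀ ρ ∈ M0 n, ρ E = 0

/-- The exceptional set `E_f`: the points `ζ` of `S` for which `f(rζ)` has no limit
as `r` increases to `1`. -/
def excSet {n : ℕ} (f : Cn n → ℂ) : Set (Sph n) :=
  {ζ | ¬ ∃ L : ℂ, Tendsto (fun r : ℝ => f ((r : ℂ) • (ζ : Cn n))) (𝓝[<] 1) (𝓝 L)}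

/-! ### Measurability of the exceptional set -/

/-- A function which is continuous on `(0, 1)` and has a limit at `1` along the rationals
has this limit at `1`. -/
theorem tendsto_of_rat {h : ℝ → ℂ} (hc : ContinuousOn h (Ioo 0 1)) {L : ℂ}
    (hL : Tendsto (fun q : ℚ => h q) (comap (fun q : ℚ => (q : ℝ)) (𝓝[<] 1)) (𝓝 L)) :
    Tendsto h (𝓝[<] 1) (𝓝 L) := by
  rw [Metric.tendsto_nhds] at hL ⊢
  intro ε hε
  have h1 := hL (ε / 2) (by positivity)
  rw [eventually_comap] at h1
  obtain ⟨l, hl, hl2⟩ := (mem_nhdsLT_iff_exists_Ioo_subset' (show (0 : ℝ) < 1 by norm_num)).1 h1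
  have hm : max l 0 < 1 := max_lt hl (by norm_num)
  filter_upwards [Ioo_mem_nhdsLT hm] with r hr
  have hr0 : r ∈ Ioo (0 : ℝ) 1 := ⟨(le_max_right _ _).trans_lt hr.1, hr.2⟩
  have hcr : ContinuousAt h r := hc.continuousAt (isOpen_Ioo.mem_nhds hr0)
  have h2 : ∀ᶠ s in 𝓝 r, dist (h s) (h r) < ε / 2 := (Metric.tendsto_nhds.1 hcr) _ (by positivity)
  have h3 : ∀ᶠ s in 𝓝 r, s ∈ Ioo (max l 0) 1 := isOpen_Ioo.mem_nhds hr
  obtain ⟨u, hu, hu2⟩ := Metric.eventually_nhds_iff.1 (h2.and h3)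
  obtain ⟨q, hq1, hq2⟩ := exists_rat_btwn (show r < r + u by linarith)
  have hd : dist (q : ℝ) r < u := by
    rw [Real.dist_eq, abs_of_pos (by linarith)]
    linarith
  obtain ⟨h4, h5⟩ := hu2 hd
  have h6 := hl2 ⟨(le_max_left _ _).trans_lt h5.1, h5.2⟩ q rfl
  calc dist (h r) L ≤ dist (h r) (h q) + dist (h q) L := dist_triangle _ _ _
    _ = dist (h q) (h r) + dist (h q) L := by rw [dist_comm (h r)]
    _ < ε := by linarith

/-- The exceptional set of a function in `H^∞(B)` is a Borel set. -/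
theorem measurableSet_excSet {n : ℕ} {f : Cn n → ℂ} (hf : IsHInf f) :
    MeasurableSet (excSet f) := by
  -- the radial functions
  have hin : ∀ (ζ : Sph n) (r : ℝ), r ∈ Ioo (0 : ℝ) 1 → (r : ℂ) • (ζ : Cn n) ∈
      ball (0 : Cn n) 1 := by
    intro ζ r hr
    have hζ : ‖(ζ : Cn n)‖ = 1 := mem_sphere_zero_iff_norm.1 ζ.2
    rw [mem_ball_zero_iff, norm_smul, hζ, mul_one, Complex.norm_real, Real.norm_eq_abs,
      abs_of_pos hr.1]
    exact hr.2
  have hcont : ContinuousOn f (ball (0 : Cn n) 1) := hf.1.continuousOn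
  let F : ℚ → Sph n → ℂ := fun q ζ => if 0 < q ∧ q < 1 then f (((q : ℝ) : ℂ) • (ζ : Cn n)) else 0
  have hF : ∀ q, Measurable (F q) := by
    intro q
    by_cases hq : 0 < q ∧ q < 1
    · have h1 : F q = fun ζ : Sph n => f (((q : ℝ) : ℂ) • (ζ : Cn n)) := by
        funext ζ
        simp only [F]
        rw [if_pos hq]
      rw [h1]
      have h2 : Continuous fun ζ : Sph n => f (((q : ℝ) : ℂ) • (ζ : Cn n)) :=
        hcont.comp_continuous (by fun_prop) fun ζ => hin ζ _
          ⟨by exact_mod_cast hq.1, by exact_mod_cast hq.2⟩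
      exact h2.measurable
    · have h1 : F q = fun _ => 0 := by
        funext ζ
        simp only [F]
        rw [if_neg hq]
      rw [h1]
      exact measurable_const
  have hm := measurableSet_exists_tendsto (l := comap (fun q : ℚ => (q : ℝ)) (𝓝[<] 1)) hF
  have heq : excSet f = {ζ : Sph n | ∃ c, Tendsto (fun q => F q ζ)
      (comap (fun q : ℚ => (q : ℝ)) (𝓝[<] 1)) (𝓝 c)}ᶜ := by
    ext ζ
    simp only [excSet, mem_ofPred_eq, mem_compl_iff]
    refine not_congr (exists_congr fun L => ?_)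
    have hev : (fun q : ℚ => F q ζ) =ᶠ[comap (fun q : ℚ => (q : ℝ)) (𝓝[<] 1)]
        fun q : ℚ => f (((q : ℝ) : ℂ) • (ζ : Cn n)) := by
      have h0 : Ioo (0 : ℝ) 1 ∈ 𝓝[<] (1 : ℝ) := Ioo_mem_nhdsLT (by norm_num)
      filter_upwards [preimage_mem_comap h0] with q hq
      have hq1 : (0 : ℝ) < (q : ℝ) := hq.1
      have hq2 : (q : ℝ) < 1 := hq.2
      have hq' : 0 < q ∧ q < 1 := ⟨by exact_mod_cast hq1, by exact_mod_cast hq2⟩
      simp only [F]
      rw [if_pos hq']
    constructor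
    · intro h
      exact (tendsto_congr' hev).2 (h.comp tendsto_comap)
    · intro h
      refine tendsto_of_rat ?_ ((tendsto_congr' hev).1 h)
      have hg : ContinuousOn (fun r : ℝ => (r : ℂ) • (ζ : Cn n)) (Ioo 0 1) := by fun_prop
      exact hcont.comp hg fun r hr => hin ζ r hr
  rw [heq]
  exact hm.compl

/-! ### Passage from two to `m + 2` variables -/

/-- The first two coordinates. -/
noncomputable def pr (m : ℕ) : Cn (m + 2) →L[ℂ] Cn 2 :=
  LinearMap.toContinuousLinearMap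
    { toFun := fun z => WithLp.toLp 2 ![z 0, z 1]
      map_add' := by
        intro x y
        ext i
        fin_cases i <;> simp
      map_smul' := by
        intro c x
        ext i
        fin_cases i <;> simp }

/-- Adding zero coordinates. -/
noncomputable def em (m : ℕ) : Cn 2 →L[ℂ] Cn (m + 2) :=
  LinearMap.toContinuousLinearMap
    { toFun := fun z => WithLp.toLp 2 (Fin.cons (z 0) (Fin.cons (z 1) fun _ => 0))
      map_add' := by
        intro x y
        ext i
        refine Fin.cases ?_ (fun i => Fin.cases ?_ (fun i => ?_) i) i <;> simp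
      map_smul' := by
        intro c x
        ext i
        refine Fin.cases ?_ (fun i => Fin.cases ?_ (fun i => ?_) i) i <;> simp }

theorem pr_zero (m : ℕ) (z : Cn (m + 2)) : pr m z 0 = z 0 := rfl
theorem pr_one (m : ℕ) (z : Cn (m + 2)) : pr m z 1 = z 1 := rfl
theorem em_zero (m : ℕ) (z : Cn 2) : em m z 0 = z 0 := rfl
theorem em_one (m : ℕ) (z : Cn 2) : em m z 1 = z 1 := rfl
theorem em_ss (m : ℕ) (z : Cn 2) (i : Fin m) : em m z i.succ.succ = 0 := rfl

theorem pr_em (m : ℕ) (z : Cn 2) : pr m (em m z) = z := by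
  ext i
  fin_cases i
  · rfl
  · rfl

theorem norm_pr_le (m : ℕ) (z : Cn (m + 2)) : ‖pr m z‖ ≤ ‖z‖ := by
  rw [EuclideanSpace.norm_eq, EuclideanSpace.norm_eq]
  apply Real.sqrt_le_sqrt
  rw [Fin.sum_univ_two, Fin.sum_univ_succ, Fin.sum_univ_succ, pr_zero, pr_one]
  have h : 0 ≤ ∑ i : Fin m, ‖z i.succ.succ‖ ^ 2 := Finset.sum_nonneg fun i _ => by positivity
  have h1 : z (Fin.succ 0) = z 1 := rfl
  rw [h1]
  linarith

theorem norm_em (m : ℕ) (z : Cn 2) : ‖em m z‖ = ‖z‖ := by
  rw [EuclideanSpace.norm_eq, EuclideanSpace.norm_eq]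
  congr 1
  rw [Fin.sum_univ_two, Fin.sum_univ_succ, Fin.sum_univ_succ, em_zero]
  have h1 : em m z (Fin.succ 0) = z 1 := rfl
  have h : ∑ i : Fin m, ‖em m z i.succ.succ‖ ^ 2 = 0 :=
    Finset.sum_eq_zero fun i _ => by rw [em_ss]; simp
  rw [h1, h, add_zero]

/-! ### The result -/

open Pool.Agent.RudinExc in
/-- **Radial limits of bounded holomorphic functions can fail on a set which is not totally
null.**  For every `n ≥ 2` there are `f` in `H^∞(B)`, a measure `ρ` in `M₀` and a compact set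
`K ⊆ E_f` with `ρ(K) = 1`; in particular `E_f` is not totally null.  Moreover there are radii
`a_k, b_k → 1` along which `f` oscillates by at least `c > 0`, uniformly on `K`. -/
theorem result (n : ℕ) (hn : 2 ≤ n) :
    ∃ f : Cn n → ℂ, IsHInf f ∧ MeasurableSet (excSet f) ∧ ¬ TotallyNull (excSet f) ∧
      ∃ ρ ∈ M0 n, ∃ K : Set (Sph n), IsCompact K ∧ K ⊆ excSet f ∧ ρ K = 1 ∧
        ∃ c : ℝ, 0 < c ∧ ∃ a b : ℕ → ℝ,
          (∀ k, a k ∈ Ioo (0 : ℝ) 1 ∧ b k ∈ Ioo (0 : ℝ) 1) ∧
          Tendsto a atTop (𝓝 1) ∧ Tendsto b atTop (𝓝 1) ∧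
          ∀ k, ∀ ζ ∈ K, c ≤ ‖f ((a k : ℂ) • (ζ : Cn n)) - f ((b k : ℂ) • (ζ : Cn n))‖ := by
  obtain ⟨m, rfl⟩ : ∃ m, n = m + 2 := ⟨n - 2, by omega⟩
  let f : Cn (m + 2) → ℂ := fun z => ff (pr m z)
  have hf : IsHInf f := by
    constructor
    · intro z hz
      rw [mem_ball_zero_iff] at hz
      have h1 : DifferentiableAt ℂ ff (pr m z) := ff_differentiable ((norm_pr_le m z).trans_lt hz)
      exact (h1.comp z (pr m).differentiableAt).differentiableWithinAt
    · refine ⟨_, fun z hz => ff_bounded ?_⟩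
      rw [mem_ball_zero_iff] at hz
      exact (norm_pr_le m z).trans hz.le
  -- the curve
  let κ : ℝ → Sph (m + 2) := fun t => ⟨em m (gam t), by
    rw [mem_sphere_zero_iff_norm, norm_em, gam_norm]⟩
  have hκ : Continuous κ := Continuous.subtype_mk ((em m).continuous.comp gam_continuous) _
  have hfκ : ∀ (t r : ℝ), f ((r : ℂ) • (κ t : Cn (m + 2))) = ff ((r : ℂ) • gam t) := by
    intro t r
    show ff (pr m ((r : ℂ) • em m (gam t))) = _
    rw [map_smul, pr_em]
  have hexc : ∀ t, κ t ∈ excSet f := by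
    rintro t ⟨L, hL⟩
    refine no_limit t ⟨L, ?_⟩
    have h1 : (fun r : ℝ => ff ((r : ℂ) • gam t)) =
        fun r : ℝ => f ((r : ℂ) • (κ t : Cn (m + 2))) := by
      funext r
      rw [hfκ]
    rw [h1]
    exact hL
  -- the measure
  let ρ : Measure (Sph (m + 2)) := ENNReal.ofReal (2 * Real.pi)⁻¹ •
    Measure.map κ (volume.restrict (Ioc (0 : ℝ) (2 * Real.pi)))
  have hπ : (0 : ℝ) ≤ 2 * Real.pi := Real.two_pi_pos.le
  have hone : ∀ T : Set (Sph (m + 2)), MeasurableSet T → (∀ t ∈ Icc (0 : ℝ) (2 * Real.pi),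
      κ t ∈ T) → ρ T = 1 := by
    intro T hT h
    have h2 : Ioc (0 : ℝ) (2 * Real.pi) ⊆ κ ⁻¹' T := fun t ht => h t (Ioc_subset_Icc_self ht)
    simp only [ρ]
    rw [Measure.smul_apply, Measure.map_apply hκ.measurable hT,
      Measure.restrict_apply (hκ.measurable hT), inter_eq_right.2 h2, smul_eq_mul,
      Real.volume_Ioc, sub_zero, ← ENNReal.ofReal_mul (by positivity)]
    have h4 : (2 * Real.pi)⁻¹ * (2 * Real.pi) = 1 := by
      have := Real.pi_pos
      field_simp
    rw [h4, ENNReal.ofReal_one]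
  have hρ : ρ ∈ M0 (m + 2) := by
    refine ⟨⟨hone univ MeasurableSet.univ fun t _ => mem_univ _⟩, ?_⟩
    rintro g ⟨hc, hd⟩
    have hgc : Continuous fun ζ : Sph (m + 2) => g (ζ : Cn (m + 2)) :=
      hc.comp_continuous continuous_subtype_val fun ζ => sphere_subset_closedBall ζ.2
    -- the restriction to two variables
    have hc2 : ContinuousOn (fun z : Cn 2 => g (em m z)) (closedBall 0 1) := by
      refine hc.comp (em m).continuous.continuousOn fun z hz => ?_
      rw [mem_closedBall_zero_iff] at hz ⊢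
      rwa [norm_em]
    have hd2 : DifferentiableOn ℂ (fun z : Cn 2 => g (em m z)) (ball 0 1) := by
      refine hd.comp (em m).differentiable.differentiableOn fun z hz => ?_
      rw [mem_ball_zero_iff] at hz ⊢
      rwa [norm_em]
    have h1 := gam_integral hc2 hd2
    simp only [ρ]
    rw [integral_smul_measure, integral_map hκ.measurable.aemeasurable
      hgc.aestronglyMeasurable, ← intervalIntegral.integral_of_le hπ,
      ENNReal.toReal_ofReal (by positivity)]
    have h2 : (∫ t in (0 : ℝ)..(2 * Real.pi), g ((κ t : Sph (m + 2)) : Cn (m + 2))) =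
        2 * Real.pi * g 0 := by
      have h3 : (2 * Real.pi * g (em m 0) : ℂ) = 2 * Real.pi * g 0 := by rw [map_zero]
      rw [← h3]
      exact h1
    rw [h2, Complex.real_smul]
    have hπc : (Real.pi : ℂ) ≠ 0 := by exact_mod_cast Real.pi_ne_zero
    push_cast
    field_simp
  -- the compact set
  have hK : IsCompact (κ '' Icc (0 : ℝ) (2 * Real.pi)) := isCompact_Icc.image hκ
  have hKρ : ρ (κ '' Icc (0 : ℝ) (2 * Real.pi)) = 1 :=
    hone _ hK.isClosed.measurableSet fun t ht => mem_image_of_mem κ ht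
  have hKE : κ '' Icc (0 : ℝ) (2 * Real.pi) ⊆ excSet f := by
    rintro _ ⟨t, -, rfl⟩
    exact hexc t
  refine ⟨f, hf, measurableSet_excSet hf, ?_, ρ, hρ, _, hK, hKE, hKρ, osz / 8,
    by have := osz_pos; positivity, fun k => (lk k).r₁, fun k => (lk k).r₂, ?_, ?_, ?_, ?_⟩
  · intro h
    have h1 := h ρ hρ
    have h2 := measure_mono_null hKE h1
    rw [hKρ] at h2
    exact one_ne_zero h2
  · intro k
    obtain ⟨p1, p2⟩ := r₁_pos k
    have u1 := (lk k).r₁_lt
    have u2 := (lk k).r₂_lt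
    have hη := (st (k + 1)).η0
    exact ⟨⟨p1, by linarith⟩, ⟨p2, by linarith⟩⟩
  · have hε0 : Tendsto (fun n => 1 - (lk n).ε) atTop (𝓝 1) := by
      have := summable_ε.tendsto_atTop_zero.const_sub 1
      rwa [sub_zero] at this
    refine tendsto_of_tendsto_of_tendsto_of_le_of_le hε0 tendsto_const_nhds
      (fun n => (lk n).r₁_gt.le) fun n => ?_
    have h1 := (lk n).r₁_lt
    have h2 := (st (n + 1)).η0
    show (lk n).r₁ ≤ 1
    linarith
  · have hε0 : Tendsto (fun n => 1 - (lk n).ε) atTop (𝓝 1) := by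
      have := summable_ε.tendsto_atTop_zero.const_sub 1
      rwa [sub_zero] at this
    refine tendsto_of_tendsto_of_tendsto_of_le_of_le hε0 tendsto_const_nhds
      (fun n => (lk n).r₂_gt.le) fun n => ?_
    have h1 := (lk n).r₂_lt
    have h2 := (st (n + 1)).η0
    show (lk n).r₂ ≤ 1
    linarith
  · rintro k _ ⟨t, -, rfl⟩
    rw [hfκ, hfκ]
    exact osc_radial t k

end Pool.Agent.Results.MP_9f272e_an.RadialFailure
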